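import Pool.Agent.U196.SO.Crit
import Pool.Agent.U196.SO.LINEb
import Pool.Agent.U196.SO.FTCb
import Pool.Agent.U196.SO.GLb
import Pool.Agent.U196.SO.GAb
import Pool.Agent.U196.SO.GTb
import Pool.Agent.U492.SO.AVER
import Pool.Agent.U324.SO.EDGE
import Pool.Agent.U44.SL.LHR
import Pool.Agent.U761.SZ.SARG

set_option autoImplicit false

/-!
# The Lindelof hypothesis and the antiderivative of the argument of zeta

`S(t) = (1/π) arg ζ(1/2 + it)` (continuous variation from `2` over `2 + it` to `1/2 + it`), `S_1(u) = ∫_100^u S(v) dv`,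
`H(u) = ∫_{1/2}^{3/2} log|ζ(x + iu)| dx`; `π S_1(u) = H(u) + O(1)` (Littlewood). For `F = S_1` and for `F = H`:

* (criterion) the Lindelof hypothesis holds if and only if for every `ε > 0`: `F(u) ≤ ε log u` for all large `u`. Only an UPPER
  bound of `F` is used.
* (oscillation, without any hypothesis) there is `c > 0` such that for all large `T` there are `u, u'` in `[T, 3T]` with
  `F(u) ≥ c √(log T) / (log log T)^(3/2)` and `F(u') ≤ -c √(log T) / (log log T)^(3/2)`.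

The proof of the criterion. Littlewood's lemma on the line `a` with the Gaussian weight `exp(-k (u - t)²)`, integrated over
`a ∈ [1/2, 3/2]`: the Gaussian mean of `H` around `t` is `2π ∑ m(ρ) W(ρ)` up to `O(1)`, over the zeros to the right of the line, with weights
`W(ρ) ≥ (β - 1/2)²/12` for `|γ - t| ≤ 1`, `W ≥ 0` for `k |γ - t| ≤ 1`, and tiny beyond. So an upper bound of `H` bounds the zeros to the right of
the line, and Backlund's criterion applies. The proof of the oscillation. Littlewood's lemma with a smooth weight (whose Fourier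
transform has compact support) on every line: the smooth average of `H` around `t` at the scale `1 / (δ log T)` is the prime sum
`Re ∑ Λ(n) (log n)^(-2) ψ₁(log n / (δ log T)) n^(-1/2-it)` up to `O(1 + SS(t))`, where `SS` is a sum over the zeros whose mean relative to every
Dirichlet polynomial of length `T^θ` is bounded. A smooth average does not exceed the maximum. Then a resonator with the
coefficients `(± μ)^(Ω(n))` on the squarefree `n` with prime factors in `(y, y^m]`, `y` about `(log T)^2`, for both signs.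
-/

namespace Pool.Agent.Results.MP_4e5e8a_nt.AntiderivativeOfTheArgument

open Filter Topology MeasureTheory Complex

noncomputable section

/-- the Lindelof hypothesis -/
def Lindelof : Prop :=
  ∀ ε : ℝ, 0 < ε → ∃ C : ℝ, ∀ t : ℝ, ‖riemannZeta (1 / 2 + t * I)‖ ≤ C * (1 + |t|) ^ ε

/-- `S(t) = (1/π) arg ζ(1/2 + it)`, by continuous variation along the segments from `2` to `2 + it` and from `2 + it` to
`1/2 + it`: `(1/π) Im ∫ (ζ'/ζ)(s) ds` along this path -/
def S (t : ℝ) : ℝ := 1 / Real.pi * ((∫ u in (0 : ℝ)..t, (logDeriv riemannZeta ((2 : ℂ) + u * I)).re) -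
  ∫ x in (1 / 2 : ℝ)..2, (logDeriv riemannZeta ((x : ℂ) + t * I)).im)

/-- `S_1(u) = ∫_100^u S(v) dv` -/
def S1 (u : ℝ) : ℝ := ∫ v in (100 : ℝ)..u, S v

/-- `H(u) = ∫_{1/2}^{3/2} log|ζ(x + iu)| dx` -/
def H (u : ℝ) : ℝ := ∫ x in (1 / 2 : ℝ)..(3 / 2), Real.log ‖riemannZeta ((x : ℂ) + u * I)‖

theorem H_eq (u : ℝ) : H u = Pool.Agent.U196.SO.Phi u := by
  unfold H Pool.Agent.U196.SO.Phi
  refine intervalIntegral.integral_congr fun x _ => ?_
  show Real.log ‖riemannZeta ((x : ℂ) + u * I)‖ = Real.log ‖riemannZeta ⟨x, u⟩‖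
  have e : (x : ℂ) + u * I = ⟨x, u⟩ := by apply Complex.ext <;> simp
  rw [e]

theorem S_ae : ∀ᵐ t : ℝ, S t = 1 / Real.pi * Pool.Agent.U761.SZ.aS t := by
  filter_upwards [Pool.Agent.U761.SZ.ae_piS] with t ht
  rw [← ht]
  rfl

theorem S1_eq (u : ℝ) : Real.pi * S1 u = ∫ v in (100 : ℝ)..u, Pool.Agent.U761.SZ.aS v := by
  have h : S1 u = 1 / Real.pi * ∫ v in (100 : ℝ)..u, Pool.Agent.U761.SZ.aS v := by
    unfold S1
    rw [← intervalIntegral.integral_const_mul]
    refine intervalIntegral.integral_congr_ae ?_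
    filter_upwards [S_ae] with t ht _
    exact ht
  rw [h, ← mul_assoc, mul_one_div_cancel Real.pi_ne_zero, one_mul]

theorem h_aver : Pool.Agent.U196.SO.S_AVER :=
  Pool.Agent.U492.SO.t_AVER (Pool.Agent.U196.SO.line Pool.Agent.Q177.UM.t_KB Pool.Agent.Q121.UM.t_LIT)

theorem S_int (u : ℝ) (hu : 100 ≤ u) : IntervalIntegrable S volume 100 u := by
  have h1 : IntervalIntegrable (fun v => 1 / Real.pi * Pool.Agent.U761.SZ.aS v) volume 100 u := by
    refine IntervalIntegrable.const_mul ?_ _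
    have h2 : IntervalIntegrable (fun v : ℝ => (Pool.Agent.U761.SZ.ell ⟨3 / 2, v⟩).im) volume 100 u :=
      (continuous_im.comp Pool.Agent.U761.SZ.ell_cont).intervalIntegrable _ _
    have h3 := h2.sub (Pool.Agent.U196.SO.ftc u hu).1
    refine h3.congr_ae (Eventually.of_forall fun v => ?_)
    exact (Pool.Agent.U761.SZ.aS_eq v).symm
  refine h1.congr_ae ?_
  refine ae_restrict_of_ae ?_
  filter_upwards [S_ae] with t ht
  exact ht.symm

/-- the criterion for a function near `π S_1` -/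
theorem crit_of {F : ℝ → ℝ} {p C : ℝ} (hp : 0 < p)
    (h : ∀ u : ℝ, 100 ≤ u → |(∫ v in (100 : ℝ)..u, Pool.Agent.U761.SZ.aS v) - p * F u| ≤ C) :
    Lindelof ↔ ∀ ε : ℝ, 0 < ε → ∃ T₀ : ℝ, ∀ u : ℝ, T₀ ≤ u → F u ≤ ε * Real.log u := by
  constructor
  · intro hL ε hε
    obtain ⟨T₁, hT₁⟩ := Pool.Agent.U196.SO.crit_mp Pool.Agent.U44.SL.t_LHR Pool.Agent.U196.SO.ftc Pool.Agent.U324.SO.t_EDGE hL
      (p * ε / 2) (by positivity)
    obtain ⟨T₂, hT₂⟩ := Filter.eventually_atTop.1 (Real.tendsto_log_atTop.eventually_ge_atTop (C / (p * ε / 2)))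
    refine ⟨max (max T₁ T₂) 100, fun u hu => ?_⟩
    have h1 := hT₁ u ((le_max_left _ _).trans ((le_max_left _ _).trans hu))
    have h2 := hT₂ u ((le_max_right _ _).trans ((le_max_left _ _).trans hu))
    have h3 := (abs_le.1 (h u ((le_max_right _ _).trans hu))).1
    rw [div_le_iff₀ (by positivity)] at h2
    have h4 : p * F u ≤ p * (ε * Real.log u) := by linarith
    exact le_of_mul_le_mul_left h4 hp
  · intro hF
    refine Pool.Agent.U196.SO.crit_mpr (Pool.Agent.U196.SO.gaver Pool.Agent.U196.SO.gline) Pool.Agent.U196.SO.gtail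
      Pool.Agent.U196.SO.ftc Pool.Agent.U324.SO.t_EDGE fun ε hε => ?_
    obtain ⟨T₁, hT₁⟩ := hF (ε / (2 * p)) (by positivity)
    obtain ⟨T₂, hT₂⟩ := Filter.eventually_atTop.1 (Real.tendsto_log_atTop.eventually_ge_atTop (C / (ε / 2)))
    refine ⟨max (max T₁ T₂) 100, fun u hu => ?_⟩
    have h1 := hT₁ u ((le_max_left _ _).trans ((le_max_left _ _).trans hu))
    have h2 := hT₂ u ((le_max_right _ _).trans ((le_max_left _ _).trans hu))
    have h3 := (abs_le.1 (h u ((le_max_right _ _).trans hu))).2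
    rw [div_le_iff₀ (by positivity)] at h2
    have h4 : p * F u ≤ p * (ε / (2 * p) * Real.log u) := mul_le_mul_of_nonneg_left h1 hp.le
    have h5 : p * (ε / (2 * p) * Real.log u) = ε / 2 * Real.log u := by field_simp
    rw [h5] at h4
    linarith

/-- the oscillation of a function near `π S_1` -/
theorem osc_of {F : ℝ → ℝ} {p C : ℝ} (hp : 0 < p)
    (h : ∀ u : ℝ, 100 ≤ u → |(∫ v in (100 : ℝ)..u, Pool.Agent.U761.SZ.aS v) - p * F u| ≤ C) :
    ∃ c T₀ : ℝ, 0 < c ∧ ∀ T : ℝ, T₀ ≤ T →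
      (∃ u : ℝ, T ≤ u ∧ u ≤ 3 * T ∧ c * (Real.sqrt (Real.log T) / Real.log (Real.log T) ^ (3 / 2 : ℝ)) ≤ F u) ∧
      (∃ u : ℝ, T ≤ u ∧ u ≤ 3 * T ∧ F u ≤ -(c * (Real.sqrt (Real.log T) / Real.log (Real.log T) ^ (3 / 2 : ℝ)))) := by
  obtain ⟨c, hc, h0⟩ := Pool.Agent.U196.SO.core h_aver Pool.Agent.U196.SO.ftc Pool.Agent.U324.SO.t_EDGE
  have hlin : Tendsto (fun T : ℝ => 5 / 4 * T) atTop atTop := tendsto_id.const_mul_atTop (by norm_num)
  obtain ⟨T₀, hT₀⟩ := Filter.eventually_atTop.1 ((hlin.eventually h0).and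
    ((Real.tendsto_log_atTop.eventually_ge_atTop 2).and
      (((Real.tendsto_log_atTop.comp Real.tendsto_log_atTop).eventually_ge_atTop 1).and
        (Pool.Agent.U196.SO.VV_tendsto (C / (c / 8))))))
  refine ⟨c / (8 * p), max T₀ 100, by positivity, fun T hT => ?_⟩
  obtain ⟨h1, h2, h3, h3'⟩ := hT₀ T ((le_max_left _ _).trans hT)
  have hT100 : 100 ≤ T := (le_max_right _ _).trans hT
  have h4 := Pool.Agent.U196.SO.VV_cmp (by linarith) h2 h3
  rw [div_le_iff₀ (by positivity)] at h3'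
  have key : ∀ σ : ℝ, σ = 1 ∨ σ = -1 → ∃ u : ℝ, T ≤ u ∧ u ≤ 3 * T ∧
      c / (8 * p) * (Real.sqrt (Real.log T) / Real.log (Real.log T) ^ (3 / 2 : ℝ)) ≤ σ * F u := by
    intro σ hσ
    obtain ⟨u, hu1, hu2, hu3⟩ := h1 σ hσ
    refine ⟨u, by linarith, by linarith, ?_⟩
    have h5 : c * (Pool.Agent.U196.SO.VV T / 4) ≤ σ * ∫ v in (100 : ℝ)..u, Pool.Agent.U761.SZ.aS v :=
      (mul_le_mul_of_nonneg_left h4 hc.le).trans hu3
    have hσa : |σ| = 1 := by rcases hσ with h | h <;> rw [h] <;> simp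
    have h6 : |σ * ((∫ v in (100 : ℝ)..u, Pool.Agent.U761.SZ.aS v) - p * F u)| ≤ C := by
      rw [abs_mul, hσa, one_mul]
      exact h u (by linarith)
    have h7 := (abs_le.1 h6).2
    have h8 : σ * ((∫ v in (100 : ℝ)..u, Pool.Agent.U761.SZ.aS v) - p * F u) =
        σ * (∫ v in (100 : ℝ)..u, Pool.Agent.U761.SZ.aS v) - p * (σ * F u) := by ring
    rw [h8] at h7
    have h9 : p * (c / (8 * p) * Pool.Agent.U196.SO.VV T) ≤ p * (σ * F u) := by
      have e : p * (c / (8 * p) * Pool.Agent.U196.SO.VV T) = c / 8 * Pool.Agent.U196.SO.VV T := by field_simp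
      rw [e]
      linarith
    exact le_of_mul_le_mul_left h9 hp
  obtain ⟨u, hu1, hu2, hu3⟩ := key 1 (Or.inl rfl)
  obtain ⟨u', hu1', hu2', hu3'⟩ := key (-1) (Or.inr rfl)
  exact ⟨⟨u, hu1, hu2, by linarith⟩, ⟨u', hu1', hu2', by linarith⟩⟩

/-- **The Lindelof hypothesis and the antiderivative of the argument of zeta.** -/
theorem result :
    -- `S` is integrable, and `π S_1` is `H` up to a bounded error
    (∃ C : ℝ, ∀ u : ℝ, 100 ≤ u → IntervalIntegrable S volume 100 u ∧ |Real.pi * S1 u - H u| ≤ C) ∧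
    ∀ F : ℝ → ℝ, F = S1 ∨ F = H →
      -- the criterion
      (Lindelof ↔ ∀ ε : ℝ, 0 < ε → ∃ T₀ : ℝ, ∀ u : ℝ, T₀ ≤ u → F u ≤ ε * Real.log u) ∧
      -- the oscillation
      (∃ c T₀ : ℝ, 0 < c ∧ ∀ T : ℝ, T₀ ≤ T →
        (∃ u : ℝ, T ≤ u ∧ u ≤ 3 * T ∧ c * (Real.sqrt (Real.log T) / Real.log (Real.log T) ^ (3 / 2 : ℝ)) ≤ F u) ∧
        (∃ u : ℝ, T ≤ u ∧ u ≤ 3 * T ∧ F u ≤ -(c * (Real.sqrt (Real.log T) / Real.log (Real.log T) ^ (3 / 2 : ℝ))))) := by
  obtain ⟨C, hC, h⟩ := Pool.Agent.U196.SO.anti Pool.Agent.U196.SO.ftc Pool.Agent.U324.SO.t_EDGE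
  refine ⟨⟨C, fun u hu => ⟨S_int u hu, ?_⟩⟩, ?_⟩
  · rw [S1_eq, H_eq]
    exact h u hu
  · intro F hF
    rcases hF with hF | hF
    · subst hF
      have h1 : ∀ u : ℝ, 100 ≤ u → |(∫ v in (100 : ℝ)..u, Pool.Agent.U761.SZ.aS v) - Real.pi * S1 u| ≤ C := by
        intro u _
        rw [S1_eq, sub_self, abs_zero]
        exact hC
      exact ⟨crit_of Real.pi_pos h1, osc_of Real.pi_pos h1⟩
    · subst hF
      have h1 : ∀ u : ℝ, 100 ≤ u → |(∫ v in (100 : ℝ)..u, Pool.Agent.U761.SZ.aS v) - 1 * H u| ≤ C := by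
        intro u hu
        rw [one_mul, H_eq]
        exact h u hu
      exact ⟨crit_of one_pos h1, osc_of one_pos h1⟩

end

end Pool.Agent.Results.MP_4e5e8a_nt.AntiderivativeOfTheArgument
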