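import Pool.Agent.U761.SZ.SARG

set_option autoImplicit false

/-!
# The logarithm of zeta on the critical line: every direction of the complex plane

Let `log ζ(1/2 + it) = log |ζ(1/2 + it)| + i π S(t)`, where `S(t) = (1/π) arg ζ(1/2 + it)` is defined by continuous variation
from `2` over `2 + it` to `1/2 + it`, and let `q(T) = log T / log log T`. Without any hypothesis there are `c, K, C > 0` such that
for all large `T` and ALL complex `z` with `|z| ≤ c √(q(T))` the set of the `t ∈ (T, 2T]` with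
`|log ζ(1/2 + it) - z| ≤ K √(log log T)` has measure at least
`T exp (-C (1 + |z|² / log (2 + log T / ((1 + |z|²) log log T))))`. So this is at least `T^(1 - ε)` for `|z| ≤ c_ε √(q(T))`, and at least
`T exp (-C_ε (1 + |z|² / log log T))` for `|z| ≤ (log T)^(1/2 - ε)`.

In particular (`z = ± i c √(q(T))`) `S(t) ≥ c' √(q(T))` and `S(t') ≤ -c' √(q(T))` for some `t, t' ∈ (T, 2T]`, for all large `T`.

The proof. Relative to every Dirichlet polynomial of length `T^θ` the complex function `log ζ(1/2 + it)` is within `O(1)`, in all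
moments, of the logarithm of the Euler product over the primes `p ≤ T^δ` (`Pool.Agent.U761.SZ.THS`). For the argument: an
identity of Littlewood's type with a smooth weight (whose Fourier transform has compact support) for the imaginary part, so that no
assumption on the zeros is needed; the possible zeros off the line enter through a sum over zeros whose moments relative to a
Dirichlet polynomial are bounded by a density theorem relative to Dirichlet polynomials. Then resonators with the coefficients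
`(μ conj(z) / |z|)^(Ω(n))`, `n` squarefree with prime factors in a set of primes which depends on `|z|`.
-/

namespace Pool.Agent.Results.MP_4e5e8a_nt.EveryDirection

open Filter Topology MeasureTheory Complex

noncomputable section

/-- `S(t) = (1/π) arg ζ(1/2 + it)`, by continuous variation along the segments from `2` to `2 + it` and from `2 + it` to
`1/2 + it`: `(1/π) Im ∫ (ζ'/ζ)(s) ds` along this path -/
def S (t : ℝ) : ℝ := 1 / Real.pi * ((∫ u in (0 : ℝ)..t, (logDeriv riemannZeta ((2 : ℂ) + u * I)).re) -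
  ∫ x in (1 / 2 : ℝ)..2, (logDeriv riemannZeta ((x : ℂ) + t * I)).im)

/-- `log ζ(1/2 + it) = log |ζ(1/2 + it)| + i π S(t)` -/
def logZeta (t : ℝ) : ℂ := (Real.log ‖riemannZeta (1 / 2 + t * I)‖ : ℂ) + (Real.pi * S t : ℝ) * I

/-- `log T / log log T` -/
def q (T : ℝ) : ℝ := Real.log T / Real.log (Real.log T)

/-- `t` is the ordinate of a zero of zeta -/
def IsOrd (t : ℝ) : Prop := ∃ s : ℂ, riemannZeta s = 0 ∧ s.im = t

theorem logZeta_eq {t : ℝ} (h : Pool.Agent.U761.SZ.piS t = Pool.Agent.U761.SZ.aS t) : logZeta t = Pool.Agent.U761.SZ.Lz t := by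
  have h1 : Real.pi * S t = Pool.Agent.U761.SZ.aS t := by
    rw [← h]
    unfold S Pool.Agent.U761.SZ.piS
    rw [← mul_assoc, mul_one_div_cancel Real.pi_ne_zero, one_mul]
  unfold logZeta Pool.Agent.U761.SZ.Lz
  rw [h1]
  apply Complex.ext <;> simp [Pool.Agent.Q97.UM.zt]

theorem ae_eq : ∀ᵐ t : ℝ, logZeta t = Pool.Agent.U761.SZ.Lz t := by
  filter_upwards [Pool.Agent.U761.SZ.ae_piS] with t ht
  exact logZeta_eq ht

theorem good_ae : ∀ᵐ t : ℝ, ¬ IsOrd t ∧ logZeta t = Pool.Agent.U761.SZ.Lz t := by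
  filter_upwards [Pool.Agent.U761.SZ.ae_not_ord, ae_eq] with t ht h2
  refine ⟨?_, h2⟩
  rintro ⟨s, hs, hst⟩
  refine ht.2 s.re ?_
  have : ((s.re : ℂ) + t * I) = s := by
    rw [← hst]
    exact Complex.re_add_im s
  rw [this]
  exact hs

theorem S_eq (t : ℝ) : Real.pi * S t = (logZeta t).im := by
  unfold logZeta
  simp

/-- **The logarithm of zeta in every direction.** -/
theorem result :
    (∃ c K C T₀ : ℝ, 0 < c ∧ 0 < K ∧ 0 < C ∧ ∀ T : ℝ, T₀ ≤ T → ∀ z : ℂ, ‖z‖ ≤ c * Real.sqrt (q T) →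
      T * Real.exp (-(C * (1 + ‖z‖ ^ 2 / Real.log (2 + Real.log T / ((1 + ‖z‖ ^ 2) * Real.log (Real.log T)))))) ≤
        volume.real {t : ℝ | T < t ∧ t ≤ 2 * T ∧ ¬ IsOrd t ∧ ‖logZeta t - z‖ ≤ K * Real.sqrt (Real.log (Real.log T))}) ∧
    (∃ c T₀ : ℝ, 0 < c ∧ ∀ T : ℝ, T₀ ≤ T →
      (∃ t : ℝ, T < t ∧ t ≤ 2 * T ∧ ¬ IsOrd t ∧ c * Real.sqrt (q T) ≤ S t) ∧
      (∃ t : ℝ, T < t ∧ t ≤ 2 * T ∧ ¬ IsOrd t ∧ S t ≤ -(c * Real.sqrt (q T)))) := by
  have part2 : ∃ c K C T₀ : ℝ, 0 < c ∧ 0 < K ∧ 0 < C ∧ ∀ T : ℝ, T₀ ≤ T → ∀ z : ℂ, ‖z‖ ≤ c * Real.sqrt (q T) →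
      T * Real.exp (-(C * (1 + ‖z‖ ^ 2 / Real.log (2 + Real.log T / ((1 + ‖z‖ ^ 2) * Real.log (Real.log T)))))) ≤
        volume.real {t : ℝ | T < t ∧ t ≤ 2 * T ∧ ¬ IsOrd t ∧ ‖logZeta t - z‖ ≤ K * Real.sqrt (Real.log (Real.log T))} := by
    obtain ⟨c, K, C, hc, hK, hC, h⟩ := Pool.Agent.U761.SZ.ld_main
    obtain ⟨T₀, hT₀⟩ := Filter.eventually_atTop.1 h
    refine ⟨c, K, C, T₀, hc, hK, hC, fun T hT z hz => ?_⟩
    refine (hT₀ T hT z hz).trans (le_of_eq ?_)
    rw [measureReal_def]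
    congr 1
    refine measure_congr ?_
    filter_upwards [good_ae] with t ht
    refine propext ?_
    show (T < t ∧ t ≤ 2 * T ∧ ‖Pool.Agent.U761.SZ.Lz t - z‖ ≤ K * Real.sqrt (Real.log (Real.log T))) ↔
      (T < t ∧ t ≤ 2 * T ∧ ¬ IsOrd t ∧ ‖logZeta t - z‖ ≤ K * Real.sqrt (Real.log (Real.log T)))
    rw [ht.2]
    tauto
  refine ⟨part2, ?_⟩
  · obtain ⟨c, K, C, T₀, hc, hK, hC, h⟩ := part2
    have hpi := Real.pi_pos
    have h1 : ∀ᶠ T : ℝ in atTop, 16 ≤ T ∧ 1 ≤ Real.log (Real.log T) ∧ K * Real.sqrt (Real.log (Real.log T)) ≤ c / 2 * Real.sqrt (q T) := by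
      have h2 : Tendsto (fun T : ℝ => Real.log (Real.log T)) atTop atTop := Real.tendsto_log_atTop.comp Real.tendsto_log_atTop
      have h3 : ∀ᶠ x : ℝ in atTop, (K * x) ^ 2 ≤ (c / 2) ^ 2 * Real.exp x := by
        have a1 := Real.tendsto_pow_mul_exp_neg_atTop_nhds_zero 2
        have a2 := a1.eventually_lt_const (show (0:ℝ) < (c / 2) ^ 2 / K ^ 2 by positivity)
        filter_upwards [a2] with x hx
        have h4 : x ^ 2 * Real.exp (-x) * Real.exp x ≤ (c / 2) ^ 2 / K ^ 2 * Real.exp x :=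
          mul_le_mul_of_nonneg_right hx.le (Real.exp_pos x).le
        rw [mul_assoc, ← Real.exp_add, neg_add_cancel, Real.exp_zero, mul_one] at h4
        calc (K * x) ^ 2 = K ^ 2 * x ^ 2 := by ring
          _ ≤ K ^ 2 * ((c / 2) ^ 2 / K ^ 2 * Real.exp x) := by gcongr
          _ = _ := by field_simp
      filter_upwards [eventually_ge_atTop 16, h2.eventually_ge_atTop 1, h2.eventually h3] with T a1 a2 a3
      refine ⟨a1, a2, ?_⟩
      have hL0 : 0 < Real.log T := Real.log_pos (by linarith)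
      have hll0 : 0 < Real.log (Real.log T) := by linarith
      rw [Real.exp_log hL0] at a3
      have h5 : c / 2 * Real.sqrt (q T) = Real.sqrt ((c / 2) ^ 2 * q T) := by
        rw [Real.sqrt_mul (by positivity), Real.sqrt_sq (by positivity)]
      have h6 : K * Real.sqrt (Real.log (Real.log T)) = Real.sqrt (K ^ 2 * Real.log (Real.log T)) := by
        rw [Real.sqrt_mul (by positivity), Real.sqrt_sq (by positivity)]
      rw [h5, h6]
      refine Real.sqrt_le_sqrt ?_
      unfold q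
      rw [← mul_div_assoc, le_div_iff₀ hll0]
      calc K ^ 2 * Real.log (Real.log T) * Real.log (Real.log T) = (K * Real.log (Real.log T)) ^ 2 := by ring
        _ ≤ _ := a3
    obtain ⟨T₁, hT₁⟩ := Filter.eventually_atTop.1 h1
    refine ⟨c / 2 / Real.pi, max T₀ T₁, by positivity, fun T hT => ?_⟩
    obtain ⟨b1, b2, b3⟩ := hT₁ T ((le_max_right _ _).trans hT)
    have hT0 : 0 < T := by linarith
    have key : ∀ σ : ℝ, |σ| = 1 → ∃ t : ℝ, T < t ∧ t ≤ 2 * T ∧ ¬ IsOrd t ∧ |Real.pi * S t - σ * (c * Real.sqrt (q T))| ≤ c / 2 * Real.sqrt (q T) := by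
      intro σ hσ
      have h2 := h T ((le_max_left _ _).trans hT) ((σ * (c * Real.sqrt (q T)) : ℝ) * I) (by
        rw [norm_mul, norm_I, mul_one, norm_real, Real.norm_eq_abs, abs_mul, hσ, one_mul,
          abs_of_nonneg (mul_nonneg hc.le (Real.sqrt_nonneg _))])
      have h3 : 0 < volume.real {t : ℝ | T < t ∧ t ≤ 2 * T ∧ ¬ IsOrd t ∧ ‖logZeta t - (σ * (c * Real.sqrt (q T)) : ℝ) * I‖ ≤
          K * Real.sqrt (Real.log (Real.log T))} := lt_of_lt_of_le (by positivity) h2
      have h4 : {t : ℝ | T < t ∧ t ≤ 2 * T ∧ ¬ IsOrd t ∧ ‖logZeta t - (σ * (c * Real.sqrt (q T)) : ℝ) * I‖ ≤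
          K * Real.sqrt (Real.log (Real.log T))}.Nonempty := by
        rw [Set.nonempty_iff_ne_empty]
        intro h5
        rw [h5] at h3
        simp at h3
      obtain ⟨t, ht1, ht2, ht3, ht4⟩ := h4
      refine ⟨t, ht1, ht2, ht3, ?_⟩
      rw [S_eq]
      have h5 : (logZeta t).im - σ * (c * Real.sqrt (q T)) = (logZeta t - (σ * (c * Real.sqrt (q T)) : ℝ) * I).im := by
        rw [sub_im]
        simp
      rw [h5]
      exact (Complex.abs_im_le_norm _).trans (ht4.trans b3)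
    constructor
    · obtain ⟨t, ht1, ht2, ht3, ht4⟩ := key 1 (by simp)
      refine ⟨t, ht1, ht2, ht3, ?_⟩
      have h6 := (abs_le.1 ht4).1
      have h7 : c / 2 * Real.sqrt (q T) ≤ Real.pi * S t := by linarith
      calc c / 2 / Real.pi * Real.sqrt (q T) = c / 2 * Real.sqrt (q T) / Real.pi := by ring
        _ ≤ Real.pi * S t / Real.pi := by gcongr
        _ = S t := by field_simp
    · obtain ⟨t, ht1, ht2, ht3, ht4⟩ := key (-1) (by simp)
      refine ⟨t, ht1, ht2, ht3, ?_⟩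
      have h6 := (abs_le.1 ht4).2
      have h7 : c / 2 * Real.sqrt (q T) ≤ -(Real.pi * S t) := by linarith
      have h8 : c / 2 / Real.pi * Real.sqrt (q T) ≤ -S t := by
        calc c / 2 / Real.pi * Real.sqrt (q T) = c / 2 * Real.sqrt (q T) / Real.pi := by ring
          _ ≤ -(Real.pi * S t) / Real.pi := by gcongr
          _ = -S t := by field_simp
      linarith

end

end Pool.Agent.Results.MP_4e5e8a_nt.EveryDirection
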