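import Mathlib
import Pool.Agent.U575.MU.Dir

/-!
# No multiplier of polynomial growth removes a large value of zeta; the Lindelöf hypothesis and mollifiers

* (law for large values, unconditional) For all `ε > 0` and `B` there are `δ > 0`, `A` and `T₀` with the following
  property.  Let `T ≥ T₀` and `|ζ(1/2 + iT)| ≥ T^ε`.  Let `G` be ANY function which is analytic with `|G| ≤ T^B` in
  the rectangle `1/2 ≤ Re s ≤ 6`, `|Im s - T| ≤ A`, and neither large nor small on the right: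
  `T^(-δ) ≤ |G| ≤ T^δ` for `Re s ≥ 3`.  Then `|ζ(1/2 + it) G(1/2 + it)| ≥ T^δ` for some `t` with `|t - T| ≤ A`.
* (criterion) So the Lindelöf hypothesis holds if and only if zeta can be mollified to the size `T^δ` locally
  everywhere, by Dirichlet polynomials `M(s) = ∑_{n ≤ N} b_n n^(-s)`, `b_1 = 1`, `|b_n| ≤ n`, which may depend on the
  place `T` and whose length may be any fixed power of `T`: mollification does not make the problem easier.
* (no conspiracy with other L-functions) Near a value `|ζ(1/2 + iT)| ≥ T^ε` the product of `ζ(1/2 + it)` and of any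
  `k` Dirichlet L-functions, of moduli at most `T^H`, at arguments `1/2 + it + a_j` with `0 ≤ Re a_j ≤ H` and
  `|Im a_j| ≤ T / 2`, takes a value of size at least `T^δ`: small values of L-functions cannot compensate a large value of
  zeta in a whole neighbourhood, whatever the L-functions and their shifts.
* (products) If `ζ(1/2 + it) ∏_j L(1/2 + it + a_j, χ_j) = O(t^ε)` for all `ε > 0`, for one finite family of Dirichlet
  characters and shifts with `Re a_j ≥ 0`, then the Lindelöf hypothesis for zeta holds.  For instance it follows from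
  the Lindelöf hypothesis for the Dedekind zeta function of any one abelian number field, or for
  `ζ(s) ζ(s + ia)`, `a` real.

Proof.  If `F = ζ G` were smaller than `T^δ` on the critical line for `|t - T| ≤ A`, then a local maximum principle in a long
rectangle (multiplier `exp (- κ log T cos (β z))`) would bound `F` in `Re s ≥ 1/2`, and by Jensen's formula about `3 + it`
there would be few zeros of `F`, hence of `ζ`, in `Re s ≥ 1/2 + d` near the height `T`.  The local form of Backlund's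
theorem (few zeros imply small values, `DH31.backlund_abs` of the starting library) bounds `ζ` on the line
`Re s = 1/2 + 2 d`, the functional equation on `Re s = 1/2 - 2 d`, and the local maximum principle between these lines
gives `|ζ(1/2 + iT)| < T^ε`.
-/

set_option autoImplicit false

open Filter Topology

namespace Pool.Agent.Results.MP_4e5e8a_nt.MollifiersDoNotHelp

/-- the zeta function on the critical line -/
noncomputable def Z (t : ℝ) : ℂ := riemannZeta (1 / 2 + t * Complex.I)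

/-- the Lindelöf hypothesis -/
def Lindelof : Prop := ∀ ε : ℝ, 0 < ε → ∃ C : ℝ, ∀ t : ℝ, ‖Z t‖ ≤ C * (1 + |t|) ^ ε

/-- `G` is analytic with `|G| ≤ T^B` in the rectangle `1/2 ≤ Re s ≤ 6`, `|Im s - T| ≤ A`, and
`T^(-δ) ≤ |G| ≤ T^δ` in its part `Re s ≥ 3`. -/
def Multiplier (G : ℂ → ℂ) (T A B δ : ℝ) : Prop :=
  (∀ s : ℂ, 1 / 2 ≤ s.re → s.re ≤ 6 → |s.im - T| ≤ A → AnalyticAt ℂ G s ∧ ‖G s‖ ≤ T ^ B) ∧
  (∀ s : ℂ, 3 ≤ s.re → s.re ≤ 6 → |s.im - T| ≤ A → T ^ (-δ) ≤ ‖G s‖ ∧ ‖G s‖ ≤ T ^ δ)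

/-- the Dirichlet polynomial with the coefficients `b_1, ..., b_N` -/
noncomputable def M (N : ℕ) (b : ℕ → ℂ) (s : ℂ) : ℂ := ∑ n ∈ Finset.Icc 1 N, b n * (n : ℂ) ^ (-s)

theorem result :
    -- the law for large values
    (∀ ε B : ℝ, 0 < ε → ∃ δ A T₀ : ℝ, 0 < δ ∧ 0 < A ∧ 1 < T₀ ∧ ∀ T : ℝ, T₀ ≤ T → T ^ ε ≤ ‖Z T‖ →
      ∀ G : ℂ → ℂ, Multiplier G T A B δ →
        ∃ t : ℝ, |t - T| ≤ A ∧ T ^ δ ≤ ‖Z t * G (1 / 2 + t * Complex.I)‖) ∧
    -- the criterion
    (Lindelof ↔ ∃ B : ℝ, ∀ δ A : ℝ, 0 < δ → 0 < A → ∃ T₀ : ℝ, ∀ T : ℝ, T₀ ≤ T →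
      ∃ (N : ℕ) (b : ℕ → ℂ), 1 ≤ N ∧ (N : ℝ) ≤ T ^ B ∧ b 1 = 1 ∧ (∀ n, ‖b n‖ ≤ n) ∧
        ∀ t : ℝ, |t - T| ≤ A → ‖Z t * M N b (1 / 2 + t * Complex.I)‖ ≤ T ^ δ) ∧
    -- no conspiracy with other L-functions
    (∀ (ε H : ℝ) (k : ℕ), 0 < ε → 0 ≤ H → ∃ δ A T₀ : ℝ, 0 < δ ∧ 0 < A ∧ 1 < T₀ ∧
      ∀ T : ℝ, T₀ ≤ T → T ^ ε ≤ ‖Z T‖ →
      ∀ (q : Fin k → ℕ) [∀ j, NeZero (q j)] (χ : (j : Fin k) → DirichletCharacter ℂ (q j)) (a : Fin k → ℂ),
        (∀ j, (q j : ℝ) ≤ T ^ H) → (∀ j, 0 ≤ (a j).re ∧ (a j).re ≤ H ∧ |(a j).im| ≤ T / 2) →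
        ∃ t : ℝ, |t - T| ≤ A ∧
          T ^ δ ≤ ‖Z t * ∏ j, DirichletCharacter.LFunction (χ j) (1 / 2 + t * Complex.I + a j)‖) ∧
    -- products
    (∀ (k : ℕ) (q : Fin k → ℕ) [∀ j, NeZero (q j)] (χ : (j : Fin k) → DirichletCharacter ℂ (q j)) (a : Fin k → ℂ),
      (∀ j, 0 ≤ (a j).re) →
      (∀ ε : ℝ, 0 < ε → ∃ C : ℝ, ∀ t : ℝ, 1 ≤ t →
        ‖Z t * ∏ j, DirichletCharacter.LFunction (χ j) (1 / 2 + t * Complex.I + a j)‖ ≤ C * t ^ ε) →
      Lindelof) := by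
  refine ⟨fun ε B hε => ?_, Pool.Agent.U575.MU.LH_iff_moll, fun ε H k hε hH => ?_, ?_⟩
  · obtain ⟨δ, A, T₀, h1, h2, h3, h⟩ := Pool.Agent.U575.MU.zeta_law ε B hε
    exact ⟨δ, A, T₀, h1, h2, h3, fun T hT hz G hG => h T hT hz G hG.1 hG.2⟩
  · exact Pool.Agent.U575.MU.zeta_joint ε H k hε hH
  · intro k q _ χ a ha h
    exact Pool.Agent.U575.MU.LH_of_product k q χ a ha h

end Pool.Agent.Results.MP_4e5e8a_nt.MollifiersDoNotHelp
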