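import Pool.Agent.U160.LZ.Ident
import Pool.Agent.U160.LZ.Fin2
import Pool.Agent.U160.LZ.MB3
import Pool.Agent.U160.LZ.Stab

/-!
# The Lindelöf hypothesis for perturbed zeta functions

The integers `n ≥ 1` in `ζ(s) = ∑ n^(-s)` are replaced by `n + d(n) {P(n)}`, where the sizes `d(n) ∈ (0,1]` are constant
on dyadic blocks and `d(n) ≥ δ n^(-η)`, `η ≥ 0`.  For almost every real polynomial `P` of degree larger than `3/ε + 1`,
the continuation to `Re s > 0` is `O((1+|t|)^(κ+ε))` on the line `Re s = 1/2`, where `κ = η/(2(1+η))`; this is the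
Lindelöf bound for `η = 0` (and for `d(n) → 0` more slowly than every power of `n`), and for `0 < η < 13/29` it is
still smaller than the known bounds for `ζ`.  For almost every sequence of independent perturbations `d(n) U_n`,
`U_n` uniform in `[0,1]`, the bound is `O(|t|^κ log |t|)`.  All perturbations of size `n^(-η)` have a zeta function
within `O(|t|^λ)` of `ζ`, `λ > 1/(2(1+η)) = 1/2 - κ`; so for `ζ` itself only the convexity bound follows.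
-/

set_option autoImplicit false

namespace Pool.Agent.Results.MP_4e5e8a_nt.PerturbedZeta

open MeasureTheory ProbabilityTheory Finset Filter Topology

/-- `1/(s-1) + ∑_{n ≥ 1} ((n + θ(n))^(-s) - ∫_n^(n+1) v^(-s) dv)` (the index is shifted by one) -/
noncomputable def zeta (θ : ℕ → ℝ) (s : ℂ) : ℂ :=
  1 / (s - 1) + ∑' n : ℕ, ((((n : ℝ) + 1 + θ (n + 1) : ℝ) : ℂ) ^ (-s) -
    ∫ v in ((n : ℝ) + 1)..((n : ℝ) + 2), (v : ℂ) ^ (-s))

/-- the fractional part of `a_1 n + a_2 n^2 + ... + a_r n^r` (`a_j` is `a (j-1)`) -/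
noncomputable def frac {r : ℕ} (a : Fin r → ℝ) (n : ℕ) : ℝ := Int.fract (∑ j : Fin r, a j * (n : ℝ) ^ (j.val + 1))

/-- the uniform law on `[0,1]` -/
noncomputable def unif : Measure ℝ := volume.restrict (Set.Icc 0 1)

instance : IsProbabilityMeasure unif := ⟨by simp [unif]⟩

theorem zeta_eq {θ : ℕ → ℝ} (h : ∀ n, 1 ≤ n → 0 ≤ θ n ∧ θ n ≤ 1) (s : ℂ) : zeta θ s = Pool.Agent.U160.LZ.Z θ s := by
  unfold zeta Pool.Agent.U160.LZ.Z Pool.Agent.U160.LZ.Y Pool.Agent.U160.LZ.yy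
  congr 1
  refine tsum_congr fun n => ?_
  rw [Pool.Agent.U160.LZ.clip_id (h (n + 1) (by omega)).1 (h (n + 1) (by omega)).2]

theorem point_eq (t : ℝ) : (1 / 2 + t * Complex.I : ℂ) = Pool.Agent.U160.LZ.pp t := by
  apply Complex.ext <;> simp [Pool.Agent.U160.LZ.pp]

theorem scaled {θ d : ℕ → ℝ} (hd : ∀ n, 0 < d n ∧ d n ≤ 1) (h : ∀ n, 0 ≤ θ n ∧ θ n ≤ 1) (s : ℂ) :
    zeta (fun n => d n * θ n) s = Pool.Agent.U160.LZ.Z (Pool.Agent.U160.LZ.Seq.sc d θ) s := by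
  rw [zeta_eq (fun n _ => ⟨mul_nonneg (hd n).1.le (h n).1, mul_le_one₀ (hd n).2 (h n).1 (h n).2⟩)]
  congr 1
  funext n
  unfold Pool.Agent.U160.LZ.Seq.sc
  rw [Pool.Agent.U160.LZ.clip_id (h n).1 (h n).2]

theorem mean_le {d : ℕ → ℝ} (hd : ∀ n, 0 < d n ∧ d n ≤ 1) (hdc : ∀ n, 1 ≤ n → d n = d (2 ^ Nat.log 2 n))
    {δ η : ℝ} (h0 : 0 < δ) (hη : 0 ≤ η) (hlow : ∀ n : ℕ, 1 ≤ n → δ * (n : ℝ) ^ (-η) ≤ d n) :
    ∃ CM : ℝ, 0 < CM ∧ ∀ t, 2 ≤ t →
    ‖∑ n ∈ range (Pool.Agent.U160.LZ.NN t), (Pool.Agent.U160.LZ.Seq.mt d t n -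
      ∫ v in ((n : ℝ) + 1)..((n : ℝ) + 2), (v : ℂ) ^ (-(Pool.Agent.U160.LZ.pp t)))‖ ≤
      CM * (t ^ (η / (2 * (1 + η))) * Real.log t) := by
  obtain ⟨C, hC, h⟩ := Pool.Agent.U160.LZ.t_MB3 d hd hdc δ η h0 hη hlow
  exact ⟨C, hC, fun t ht => h t (Pool.Agent.U160.LZ.NN t) ht (Pool.Agent.U160.LZ.NN_le t)⟩

/-- **The Lindelöf hypothesis for perturbed zeta functions.** -/
theorem result :
    -- the functions: analytic continuation to `Re s > 0`; `θ = 0` is the Riemann zeta function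
    (∀ θ : ℕ → ℝ, (∀ n, 1 ≤ n → 0 ≤ θ n ∧ θ n ≤ 1) →
      AnalyticOnNhd ℂ (zeta θ) {s : ℂ | 0 < s.re ∧ s ≠ 1} ∧
      ∀ s : ℂ, 1 < s.re → Summable (fun n : ℕ => (((n : ℝ) + 1 + θ (n + 1) : ℝ) : ℂ) ^ (-s)) ∧
        zeta θ s = ∑' n : ℕ, (((n : ℝ) + 1 + θ (n + 1) : ℝ) : ℂ) ^ (-s)) ∧
    (∀ s : ℂ, 0 < s.re → s ≠ 1 → zeta 0 s = riemannZeta s) ∧
    -- perturbations `d(n) {P(n)}`, `d(n)` constant on dyadic blocks and at least `δ n^(-η)`
    (∀ d : ℕ → ℝ, (∀ n, 0 < d n ∧ d n ≤ 1) → (∀ n, 1 ≤ n → d n = d (2 ^ Nat.log 2 n)) →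
      ∀ δ η : ℝ, 0 < δ → 0 ≤ η → (∀ n : ℕ, 1 ≤ n → δ * (n : ℝ) ^ (-η) ≤ d n) →
      ∀ (r : ℕ) (ε : ℝ), 0 < ε → 3 / ε + 1 < r → ∀ᵐ a : Fin r → ℝ, ∃ C : ℝ, ∀ t : ℝ,
      ‖zeta (fun n => d n * frac a n) (1 / 2 + t * Complex.I)‖ ≤ C * (1 + |t|) ^ (η / (2 * (1 + η)) + ε)) ∧
    -- independent perturbations
    (∀ d : ℕ → ℝ, (∀ n, 0 < d n ∧ d n ≤ 1) → (∀ n, 1 ≤ n → d n = d (2 ^ Nat.log 2 n)) →
      ∀ δ η : ℝ, 0 < δ → 0 ≤ η → (∀ n : ℕ, 1 ≤ n → δ * (n : ℝ) ^ (-η) ≤ d n) →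
      ∀ᵐ θ ∂(Measure.infinitePi fun _ : ℕ => unif), ∃ C : ℝ, ∀ t : ℝ,
      ‖zeta (fun n => d n * θ n) (1 / 2 + t * Complex.I)‖ ≤
        C * ((2 + |t|) ^ (η / (2 * (1 + η))) * Real.log (2 + |t|))) ∧
    -- every perturbation of size `n^(-η)`: distance from the Riemann zeta function
    (∀ η lam : ℝ, 0 ≤ η → 1 / (2 * (1 + η)) < lam → lam ≤ 1 → ∃ C : ℝ, ∀ θ : ℕ → ℝ,
      (∀ n, 1 ≤ n → 0 ≤ θ n ∧ θ n ≤ (n : ℝ) ^ (-η)) → ∀ t : ℝ,
      ‖zeta θ (1 / 2 + t * Complex.I) - riemannZeta (1 / 2 + t * Complex.I)‖ ≤ C * (1 + |t|) ^ lam) := by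
  refine ⟨?_, ?_, ?_, ?_, ?_⟩
  · intro θ hθ
    have h1 : zeta θ = Pool.Agent.U160.LZ.Z θ := funext (zeta_eq hθ)
    have h2 : ∀ (s : ℂ) (n : ℕ), (Pool.Agent.U160.LZ.yy θ n : ℂ) ^ (-s) = (((n : ℝ) + 1 + θ (n + 1) : ℝ) : ℂ) ^ (-s) := by
      intro s n
      unfold Pool.Agent.U160.LZ.yy
      rw [Pool.Agent.U160.LZ.clip_id (hθ (n + 1) (by omega)).1 (hθ (n + 1) (by omega)).2]
    rw [h1]
    refine ⟨(Pool.Agent.U160.LZ.t_ZA θ).2.1, fun s hs => ?_⟩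
    have h3 := (Pool.Agent.U160.LZ.t_ZA θ).2.2 s hs
    simp_rw [h2 s] at h3
    exact h3
  · intro s h0 h1
    rw [zeta_eq (θ := 0) (fun n _ => ⟨le_refl _, zero_le_one⟩)]
    exact Pool.Agent.U160.LZ.Z_zero s h0 h1
  · intro d hd hdc δ η hδ hη hlow r ε hε hr
    set κ : ℝ := η / (2 * (1 + η)) with hκ
    have hκ0 : 0 ≤ κ := by positivity
    set q : ℕ := r / 2 with hq
    have hq2 : 2 * q ≤ r := by omega
    have hr2 : (r : ℝ) ≤ 2 * q + 1 := by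
      have : r ≤ 2 * q + 1 := by omega
      exact_mod_cast this
    have hdiv : 3 / ε < 2 * q := by linarith
    have h3 : 3 < 2 * q * ε := by rwa [div_lt_iff₀ hε] at hdiv
    obtain ⟨CM, hCM, hM⟩ := mean_le hd hdc hδ hη hlow
    have h1 := Pool.Agent.U160.VP.t_R2 r (fun θ => ∃ C T : ℝ, 2 ≤ T ∧ ∀ t : ℝ, T ≤ t →
      ‖Pool.Agent.U160.LZ.Z (Pool.Agent.U160.LZ.Seq.sc d θ) (Pool.Agent.U160.LZ.pp t)‖ ≤ C * t ^ (κ + ε)) (by
        have := Pool.Agent.U160.VP.cube_prob r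
        refine Pool.Agent.U160.LZ.Seq.lind_kind (fun n => (hd n).1.le) (fun n => (hd n).2) κ hκ0 CM hCM.le hM q ε hε h3
          (Fin r → ℝ) (volume.restrict (Pool.Agent.U160.VP.cube r)) (fun n x => Pool.Agent.U160.VP.frac x n)
          (fun n => Pool.Agent.U160.VP.frac_meas n) ?_
        have h2 := Pool.Agent.U160.VP.frac_kind r (2 * q) hq2
        rwa [Pool.Agent.U160.VP.law_one] at h2)
    filter_upwards [h1] with a ha
    obtain ⟨C, T, hT, hC⟩ := ha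
    obtain ⟨C', hC'⟩ := Pool.Agent.U160.LZ.all_t (Pool.Agent.U160.LZ.Seq.sc d (Pool.Agent.U160.VP.frac a))
      (fun t => (1 + t) ^ (κ + ε)) one_pos (fun t ht => Real.one_le_rpow (by linarith) (by linarith)) (C := |C|) hT
      (fun t ht => (hC t ht).trans (by
        have h5 : t ^ (κ + ε) ≤ (1 + t) ^ (κ + ε) := Real.rpow_le_rpow (by linarith) (by linarith) (by linarith)
        have h6 : 0 ≤ t ^ (κ + ε) := Real.rpow_nonneg (by linarith) _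
        calc C * t ^ (κ + ε) ≤ |C| * t ^ (κ + ε) := mul_le_mul_of_nonneg_right (le_abs_self _) h6
          _ ≤ _ := mul_le_mul_of_nonneg_left h5 (abs_nonneg _)))
    refine ⟨C', fun t => ?_⟩
    rw [point_eq, scaled (θ := frac a) hd (fun n => ⟨Int.fract_nonneg _, (Int.fract_lt_one _).le⟩)]
    exact hC' t
  · intro d hd hdc δ η hδ hη hlow
    set κ : ℝ := η / (2 * (1 + η)) with hκ
    have hκ0 : 0 ≤ κ := by positivity
    obtain ⟨CM, hCM, hM⟩ := mean_le hd hdc hδ hη hlow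
    have hu : ∀ᵐ θ ∂(Measure.infinitePi fun _ : ℕ => unif), ∀ n, 0 ≤ θ n ∧ θ n ≤ 1 := by
      rw [ae_all_iff]
      intro n
      have h1 : ∀ᵐ x ∂unif, x ∈ Set.Icc (0 : ℝ) 1 := ae_restrict_mem measurableSet_Icc
      have h2 : (Measure.infinitePi fun _ : ℕ => unif).map (fun θ : ℕ → ℝ => θ n) = unif :=
        Measure.infinitePi_map_eval (fun _ => unif) n
      rw [← h2] at h1
      filter_upwards [ae_of_ae_map (measurable_pi_apply n).aemeasurable h1] with θ h using h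
    have h1 : ∀ᵐ θ ∂(Measure.infinitePi fun _ : ℕ => unif), ∃ C T : ℝ, 2 ≤ T ∧ ∀ t : ℝ, T ≤ t →
      ‖Pool.Agent.U160.LZ.Z (Pool.Agent.U160.LZ.Seq.sc d θ) (Pool.Agent.U160.LZ.pp t)‖ ≤
        C * (t ^ κ * (2 * Real.log t)) :=
      Pool.Agent.U160.LZ.Seq.lind_iid (fun n => (hd n).1.le) (fun n => (hd n).2) κ hκ0 CM hCM.le hM
    filter_upwards [hu, h1] with θ h2 h3
    obtain ⟨C, T, hT, hC⟩ := h3
    obtain ⟨C', hC'⟩ := Pool.Agent.U160.LZ.all_t (Pool.Agent.U160.LZ.Seq.sc d θ)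
      (fun t => (2 + t) ^ κ * Real.log (2 + t)) (Real.log_pos one_lt_two)
      (fun t ht => by
        have k1 : 1 ≤ (2 + t) ^ κ := Real.one_le_rpow (by linarith) hκ0
        have k2 : Real.log 2 ≤ Real.log (2 + t) := Real.log_le_log (by norm_num) (by linarith)
        have k3 : 0 < Real.log 2 := Real.log_pos one_lt_two
        nlinarith) (C := 2 * |C|) hT
      (fun t ht => (hC t ht).trans (by
        have h5 : Real.log t ≤ Real.log (2 + t) := Real.log_le_log (by linarith) (by linarith)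
        have h6 : 0 ≤ Real.log t := Real.log_nonneg (by linarith)
        have h7 : t ^ κ ≤ (2 + t) ^ κ := Real.rpow_le_rpow (by linarith) (by linarith) hκ0
        have h8 : 0 ≤ t ^ κ := Real.rpow_nonneg (by linarith) _
        calc C * (t ^ κ * (2 * Real.log t)) ≤ |C| * (t ^ κ * (2 * Real.log t)) :=
              mul_le_mul_of_nonneg_right (le_abs_self _) (by positivity)
          _ = 2 * |C| * (t ^ κ * Real.log t) := by ring
          _ ≤ 2 * |C| * ((2 + t) ^ κ * Real.log (2 + t)) := by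
            apply mul_le_mul_of_nonneg_left _ (by positivity)
            exact mul_le_mul h7 h5 h6 (h8.trans h7)))
    refine ⟨C', fun t => ?_⟩
    rw [point_eq, scaled hd h2]
    exact hC' t
  · intro η lam hη hl hl1
    obtain ⟨C, hC⟩ := Pool.Agent.U160.LZ.Stab.stab η hη lam hl hl1
    refine ⟨C, fun θ hθ t => ?_⟩
    have h1 : ∀ n, 1 ≤ n → 0 ≤ θ n ∧ θ n ≤ 1 := fun n hn => ⟨(hθ n hn).1, (hθ n hn).2.trans
      (Real.rpow_le_one_of_one_le_of_nonpos (by exact_mod_cast hn) (by linarith))⟩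
    rw [point_eq, zeta_eq h1, ← Pool.Agent.U160.LZ.Z_zero (Pool.Agent.U160.LZ.pp t)
      (by norm_num [Pool.Agent.U160.LZ.pp]) (by
        intro hcon
        have := congrArg Complex.re hcon
        norm_num [Pool.Agent.U160.LZ.pp] at this)]
    exact hC θ hθ t

end Pool.Agent.Results.MP_4e5e8a_nt.PerturbedZeta
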