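import Mathlib
import Pool.Agent.U575.MU.Nev4

/-!
# Near a large value zeta takes all small functions many times; Backlund's criterion for moving targets

Let `w(s) = ζ^(m)(s)` be zeta or any of its derivatives, and let `P(s, w) = w^n + a_(n-1)(s) w^(n-1) + ... + a_0(s)` be a
monic polynomial of degree `n ≥ 1` whose coefficients are analytic near the height `T` and small there.

* (law, unconditional) For all `ε > 0`, `m ≥ 0`, `n ≥ 1` and `H ≥ 3` there are `d, δ > 0`, `A` and `T₀` such that for all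
  `T ≥ T₀` with `|ζ(1/2 + iT)| ≥ T^ε` and ALL coefficients with `|a_j| ≤ T^δ` in `1/2 ≤ Re s ≤ 2H + 2`, `|Im s - T| ≤ A`: if
  `|P(s, ζ^(m)(s))| ≥ T^(-δ)` for `H ≤ Re s ≤ H + 2`, then the equation `P(s, ζ^(m)(s)) = 0` has at least `δ log T` solutions
  (with multiplicities) in `Re s ≥ 1/2 + d`, `|Im s - T| ≤ A`.  The case `n = 1` concerns the equation `ζ^(m)(s) = g(s)`: near a
  large value zeta takes EVERY small function (a number `v` with `2 ≤ |v| ≤ T^δ`, a Dirichlet polynomial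
  `∑_{2 ≤ n ≤ N} b_n n^(-s)` of length `N ≤ T^(δ/2)` with `|b_n| ≤ n^(1/2) / 8`, ...) at least `δ log T` times to the right of the
  critical line: there are no exceptional small functions as in Nevanlinna's theory.
* (criterion, moving targets) For every `m`, `n`, `H` and every family `P_T` of such polynomials with coefficients `T^(o(1))`
  and with `|P_T(s, ζ^(m)(s))| ≥ T^(-o(1))` for `H ≤ Re s ≤ H + 2`, the Lindelöf hypothesis holds if and only if, for
  all `d, A > 0`, the equation `P_T(s, ζ^(m)(s)) = 0` has `o(log T)` solutions in `Re s ≥ 1/2 + d`, `|Im s - T| ≤ A`.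
* (criterion, fixed values) For every `m ≥ 0` and EVERY complex number `v` the Lindelöf hypothesis holds if and only if for
  all `d > 0` the equation `ζ^(m)(s) = v` has `o(log T)` solutions in `Re s ≥ 1/2 + d`, `T ≤ Im s ≤ T + 1`.  For
  `m = 0`, `v = 0` this is Backlund's theorem.

Proof.  Let `F(s) = P(s, ζ^(m)(s))`.  If `F` has few zeros to the right of `1/2 + d`, a form of Backlund's theorem for functions
controlled only far to the right (extraction of the zeros, Borel-Carathéodory, Laurent coefficients; `DH31.backlund_abs` of the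
starting library after a change of scale) gives `|F| ≤ T^κ` for `Re s ≥ 1/2 + 2d`; a root of a monic polynomial with small
coefficients is small, so `ζ^(m)`, and by integration from the right `ζ`, is small there; the functional equation and a local
maximum principle give `|ζ(1/2 + iT)| < T^ε`.  Conversely the bound `T^(o(1))` on the critical line near `T` implies the same bound of
`F` to the right of it (local maximum principle and Cauchy's estimate), and Jensen's formula applies.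
-/

set_option autoImplicit false

open Filter Topology

namespace Pool.Agent.Results.MP_4e5e8a_nt.SmallFunctions

/-- the Lindelöf hypothesis -/
def Lindelof : Prop :=
  ∀ ε : ℝ, 0 < ε → ∃ C : ℝ, ∀ t : ℝ, ‖riemannZeta (1 / 2 + t * Complex.I)‖ ≤ C * (1 + |t|) ^ ε

/-- `P(s, ζ^(m)(s))` for the monic polynomial `P(s, w) = w^n + ∑_{j < n} a_j(s) w^j` -/
noncomputable def Eqn (m n : ℕ) (a : ℕ → ℂ → ℂ) (s : ℂ) : ℂ :=
  iteratedDeriv m riemannZeta s ^ n + ∑ j ∈ Finset.range n, a j s * iteratedDeriv m riemannZeta s ^ j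

/-- the coefficients are analytic with `|a_j| ≤ T^δ` in `1/2 ≤ Re s ≤ 2H + 2`, `|Im s - T| ≤ A`, and
`|P(s, ζ^(m)(s))| ≥ T^(-δ)` for `H ≤ Re s ≤ H + 2`, `|Im s - T| ≤ A` -/
def Small (m n : ℕ) (H δ A T : ℝ) (a : ℕ → ℂ → ℂ) : Prop :=
  (∀ j < n, ∀ s : ℂ, 1 / 2 ≤ s.re → s.re ≤ 2 * H + 2 → |s.im - T| ≤ A → AnalyticAt ℂ (a j) s ∧ ‖a j s‖ ≤ T ^ δ) ∧
  (∀ s : ℂ, H ≤ s.re → s.re ≤ H + 2 → |s.im - T| ≤ A → T ^ (-δ) ≤ ‖Eqn m n a s‖)

/-- `S` consists of solutions with `1/2 + d ≤ Re s ≤ 2H + 3/2 - d` and `|Im s - T| ≤ A` -/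
def Solutions (m n : ℕ) (H d A T : ℝ) (a : ℕ → ℂ → ℂ) (S : Finset ℂ) : Prop :=
  ∀ z ∈ S, 1 / 2 + d ≤ z.re ∧ z.re ≤ 2 * H + 3 / 2 - d ∧ |z.im - T| ≤ A ∧ Eqn m n a z = 0

theorem result :
    -- near a large value of zeta every small function is taken many times
    (∀ ε : ℝ, 0 < ε → ∀ m n : ℕ, 1 ≤ n → ∀ H : ℝ, 3 ≤ H → ∃ d δ A T₀ : ℝ, 0 < d ∧ 0 < δ ∧ 0 < A ∧ 1 < T₀ ∧
      ∀ T : ℝ, T₀ ≤ T → T ^ ε ≤ ‖riemannZeta (1 / 2 + T * Complex.I)‖ → ∀ a : ℕ → ℂ → ℂ, Small m n H δ A T a →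
        ∃ S : Finset ℂ, Solutions m n H d A T a S ∧
          δ * Real.log T ≤ ∑ z ∈ S, (analyticOrderNatAt (Eqn m n a) z : ℝ)) ∧
    -- the criterion for moving targets
    (∀ m n : ℕ, 1 ≤ n → ∀ H : ℝ, 3 ≤ H → ∀ a : ℝ → ℕ → ℂ → ℂ,
      (∀ δ A : ℝ, 0 < δ → 0 < A → ∃ T₀ : ℝ, ∀ T : ℝ, T₀ ≤ T → Small m n H δ A T (a T)) →
      (Lindelof ↔ ∀ d δ A : ℝ, 0 < d → 0 < δ → 0 < A → ∃ T₀ : ℝ, ∀ T : ℝ, T₀ ≤ T → ∀ S : Finset ℂ,
        Solutions m n H d A T (a T) S →
          ∑ z ∈ S, (analyticOrderNatAt (Eqn m n (a T)) z : ℝ) ≤ δ * Real.log T)) ∧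
    -- the criterion for every value of every derivative
    (∀ (m : ℕ) (v : ℂ), Lindelof ↔ ∀ d δ : ℝ, 0 < d → 0 < δ → ∃ T₀ : ℝ, ∀ T : ℝ, T₀ ≤ T → ∀ S : Finset ℂ,
      (∀ z ∈ S, 1 / 2 + d ≤ z.re ∧ T ≤ z.im ∧ z.im ≤ T + 1 ∧ iteratedDeriv m riemannZeta z = v) →
        ∑ z ∈ S, (analyticOrderNatAt (fun s => iteratedDeriv m riemannZeta s - v) z : ℝ) ≤ δ * Real.log T) := by
  refine ⟨fun ε hε m n hn H hH => ?_, fun m n hn H hH a ha => ?_, fun m v => ?_⟩
  · obtain ⟨d, δ, A, T₀, h1, _, h3, h4, h5, h⟩ := Pool.Agent.U575.MU.small_functions ε hε m n hn H hH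
    exact ⟨d, δ, A, T₀, h1, h3, h4, h5, fun T hT hz a ha => h T hT hz a ha.1 ha.2⟩
  · exact Pool.Agent.U575.MU.LH_iff_few m n hn H hH a ha
  · exact Pool.Agent.U575.MU.LH_iff_pts m v

end Pool.Agent.Results.MP_4e5e8a_nt.SmallFunctions
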